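import Pool.Agent.H586.AF.B

set_option autoImplicit false

open MeasureTheory Matrix Finset Filter Topology

namespace Pool.Agent.H17.AF

open Pool.Agent.H586.AF

theorem tr_eq {m n : ℕ} (A : Matrix (Fin m) (Fin n) ℝ) : Aᴴ = Aᵀ := conjTranspose_eq_transpose_of_trivial A

theorem det_dm (L : ℕ) : (dm L L).det = 1 := by
  rw [Matrix.det_of_isLowerTriangular]
  · refine Finset.prod_eq_one fun i _ => ?_
    unfold dm
    rw [if_pos rfl, if_neg (by omega), sub_zero]
  · intro j i h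
    have h' : j < i := h
    have h2 : (j : ℕ) < i := h'
    show dm L L j i = 0
    unfold dm
    rw [if_neg (by omega), if_neg (by omega), sub_zero]

theorem unit_dm (L : ℕ) : IsUnit (dm L L) := by
  rw [Matrix.isUnit_iff_isUnit_det, det_dm]
  exact isUnit_one

theorem form_DD (L : ℕ) (hL : 2 ≤ L) (i i' : Fin (L - 1)) : lDD L i i' =
    (if i = i' then 2 else 0) - (if (i' : ℕ) = i + 1 then 1 else 0) - (if (i : ℕ) = i' + 1 then 1 else 0) := by
  have hi := i.2
  have hi' := i'.2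
  unfold lDD
  rw [Matrix.mul_apply]
  obtain ⟨a, ha⟩ : ∃ a : Fin L, a = ⟨i, by omega⟩ := ⟨_, rfl⟩
  obtain ⟨b, hb⟩ : ∃ b : Fin L, b = ⟨(i : ℕ) + 1, by omega⟩ := ⟨_, rfl⟩
  have hav : (a : ℕ) = i := by rw [ha]
  have hbv : (b : ℕ) = i + 1 := by rw [hb]
  have hab : a ≠ b := fun h => by
    have : (a : ℕ) = b := by rw [h]
    omega
  have key : ∀ j : Fin L, (dm L (L - 1))ᵀ i j * dm L (L - 1) j i' =
      (if j = a then dm L (L - 1) a i' else 0) - (if j = b then dm L (L - 1) b i' else 0) := by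
    intro j
    rw [Matrix.transpose_apply]
    by_cases h1 : j = a
    · subst h1
      rw [if_pos rfl, if_neg hab]
      have : dm L (L - 1) j i = 1 := by
        unfold dm
        rw [if_pos hav.symm, if_neg (by omega), sub_zero]
      rw [this]
      ring
    · by_cases h2 : j = b
      · subst h2
        rw [if_neg h1, if_pos rfl]
        have : dm L (L - 1) j i = -1 := by
          unfold dm
          rw [if_neg (by omega), if_pos hbv.symm, zero_sub]
        rw [this]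
        ring
      · rw [if_neg h1, if_neg h2]
        have : dm L (L - 1) j i = 0 := by
          have h3 : (j : ℕ) ≠ a := fun h => h1 (Fin.ext h)
          have h4 : (j : ℕ) ≠ b := fun h => h2 (Fin.ext h)
          unfold dm
          rw [if_neg (by omega), if_neg (by omega), sub_zero]
        rw [this]
        ring
  rw [Finset.sum_congr rfl (fun j _ => key j), Finset.sum_sub_distrib, Finset.sum_ite_eq',
    Finset.sum_ite_eq', if_pos (Finset.mem_univ _), if_pos (Finset.mem_univ _)]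
  unfold dm
  rw [hav, hbv]
  by_cases h1 : i = i'
  · subst h1
    rw [if_pos rfl, if_neg (show ¬ ((i : ℕ) + 1 = i) by omega), if_neg (show ¬ ((i : ℕ) = i + 1) by omega),
      if_pos rfl, if_pos rfl]
    norm_num
  · have h1' : (i : ℕ) ≠ i' := fun h => h1 (Fin.ext h)
    rw [if_neg h1, if_neg (fun h => h1' h.symm)]
    by_cases h2 : (i' : ℕ) = i + 1
    · rw [if_pos h2, if_neg (by omega), if_neg (by omega), if_neg (by omega)]
      norm_num
    · rw [if_neg h2, if_neg (show ¬ ((i' : ℕ) + 1 = i + 1) by omega)]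
      by_cases h3 : (i : ℕ) = i' + 1
      · rw [if_pos h3, if_pos h3.symm]; norm_num
      · rw [if_neg h3, if_neg (fun h => h3 h.symm)]; norm_num

theorem form_NN (L : ℕ) (j j' : Fin L) (hjj : j ≠ j') : lNN L j j' =
    - (if (j' : ℕ) = j + 1 then 1 else 0) - (if (j : ℕ) = j' + 1 then 1 else 0) := by
  have hj := j.2
  have hj' := j'.2
  have hne : (j : ℕ) ≠ j' := fun h => hjj (Fin.ext h)
  unfold lNN
  rw [Matrix.mul_apply]
  have key : ∀ i : Fin (L - 1), dm L (L - 1) j i * (dm L (L - 1))ᵀ i j' =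
      -(if (i : ℕ) = j ∧ (j' : ℕ) = j + 1 then 1 else 0) - (if (i : ℕ) = j' ∧ (j : ℕ) = j' + 1 then 1 else 0) := by
    intro i
    rw [Matrix.transpose_apply]
    unfold dm
    split_ifs <;> first | omega | norm_num
  rw [Finset.sum_congr rfl (fun j _ => key j), Finset.sum_sub_distrib, Finset.sum_neg_distrib]
  by_cases h2 : (j' : ℕ) = j + 1
  · have h3 : ¬ ((j : ℕ) = j' + 1) := by omega
    rw [if_pos h2, if_neg h3]
    have e1 : ∑ i : Fin (L - 1), (if (i : ℕ) = j ∧ (j' : ℕ) = j + 1 then (1 : ℝ) else 0) = 1 := by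
      rw [Finset.sum_eq_single (⟨j, by omega⟩ : Fin (L - 1))]
      · rw [if_pos ⟨rfl, h2⟩]
      · intro b _ hb
        rw [if_neg]
        rintro ⟨h, _⟩
        exact hb (Fin.ext h)
      · intro h; exact absurd (Finset.mem_univ _) h
    have e2 : ∑ i : Fin (L - 1), (if (i : ℕ) = j' ∧ (j : ℕ) = j' + 1 then (1 : ℝ) else 0) = 0 :=
      Finset.sum_eq_zero fun i _ => if_neg fun h => h3 h.2
    rw [e1, e2]
  · by_cases h3 : (j : ℕ) = j' + 1
    · rw [if_neg h2, if_pos h3]
      have e1 : ∑ i : Fin (L - 1), (if (i : ℕ) = j' ∧ (j : ℕ) = j' + 1 then (1 : ℝ) else 0) = 1 := by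
        rw [Finset.sum_eq_single (⟨j', by omega⟩ : Fin (L - 1))]
        · rw [if_pos ⟨rfl, h3⟩]
        · intro b _ hb
          rw [if_neg]
          rintro ⟨h, _⟩
          exact hb (Fin.ext h)
        · intro h; exact absurd (Finset.mem_univ _) h
      have e2 : ∑ i : Fin (L - 1), (if (i : ℕ) = j ∧ (j' : ℕ) = j + 1 then (1 : ℝ) else 0) = 0 :=
        Finset.sum_eq_zero fun i _ => if_neg fun h => h2 h.2
      rw [e1, e2]
    · rw [if_neg h2, if_neg h3]
      have e1 : ∑ i : Fin (L - 1), (if (i : ℕ) = j' ∧ (j : ℕ) = j' + 1 then (1 : ℝ) else 0) = 0 :=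
        Finset.sum_eq_zero fun i _ => if_neg fun h => h3 h.2
      have e2 : ∑ i : Fin (L - 1), (if (i : ℕ) = j ∧ (j' : ℕ) = j + 1 then (1 : ℝ) else 0) = 0 :=
        Finset.sum_eq_zero fun i _ => if_neg fun h => h2 h.2
      rw [e1, e2]

open scoped Kronecker in
theorem k4_kron {n1 n2 n3 n4 : ℕ} (A1 : Matrix (Fin n1) (Fin n1) ℝ) (A2 : Matrix (Fin n2) (Fin n2) ℝ)
    (A3 : Matrix (Fin n3) (Fin n3) ℝ) (A4 : Matrix (Fin n4) (Fin n4) ℝ) :
    k4 A1 A2 A3 A4 = A1 ⊗ₖ (A2 ⊗ₖ (A3 ⊗ₖ A4)) := by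
  ext x y
  unfold k4
  rw [Matrix.kronecker_apply, Matrix.kronecker_apply, Matrix.kronecker_apply]
  ring

theorem k4_psd {n1 n2 n3 n4 : ℕ} {A1 : Matrix (Fin n1) (Fin n1) ℝ} {A2 : Matrix (Fin n2) (Fin n2) ℝ}
    {A3 : Matrix (Fin n3) (Fin n3) ℝ} {A4 : Matrix (Fin n4) (Fin n4) ℝ} (h1 : A1.PosSemidef)
    (h2 : A2.PosSemidef) (h3 : A3.PosSemidef) (h4 : A4.PosSemidef) : (k4 A1 A2 A3 A4).PosSemidef := by
  rw [k4_kron]
  exact h1.kronecker (h2.kronecker (h3.kronecker h4))

theorem k4_pd {n1 n2 n3 n4 : ℕ} {A1 : Matrix (Fin n1) (Fin n1) ℝ} {A2 : Matrix (Fin n2) (Fin n2) ℝ}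
    {A3 : Matrix (Fin n3) (Fin n3) ℝ} {A4 : Matrix (Fin n4) (Fin n4) ℝ} (h1 : A1.PosDef)
    (h2 : A2.PosDef) (h3 : A3.PosDef) (h4 : A4.PosDef) : (k4 A1 A2 A3 A4).PosDef := by
  rw [k4_kron]
  exact h1.kronecker (h2.kronecker (h3.kronecker h4))

theorem tpd : S_PD := by
  intro L hL
  refine ⟨?_, ?_, ?_, ?_, det_dm L, ?_, ?_, ?_⟩
  · unfold lDD
    rw [← tr_eq]
    exact posSemidef_conjTranspose_mul_self _
  · unfold lNN
    rw [← tr_eq]
    exact posSemidef_self_mul_conjTranspose _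
  · unfold lDN
    rw [← tr_eq]
    exact Matrix.PosDef.conjTranspose_mul_self _ (Matrix.mulVec_injective_of_isUnit (unit_dm L))
  · unfold lND
    rw [← tr_eq]
    exact Matrix.PosDef.mul_conjTranspose_self _ (Matrix.vecMul_injective_of_isUnit (unit_dm L))
  · ext i i'
    rw [Matrix.sub_apply, Matrix.sub_apply, Matrix.transpose_apply, Matrix.diagonal_apply]
    unfold tm
    by_cases h : i = i'
    · subst h
      rw [if_pos rfl, if_neg (by omega)]
      ring
    · rw [if_neg h, form_DD L hL i i', if_neg h]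
  · ext i i'
    rw [Matrix.sub_apply, Matrix.sub_apply, Matrix.transpose_apply, Matrix.diagonal_apply]
    unfold tm
    by_cases h : i = i'
    · subst h
      rw [if_pos rfl, if_neg (by omega)]
      ring
    · rw [if_neg h, form_NN L i i' h]
      ring
  · intro n1 n2 n3 n4 A1 A2 A3 A4 h1 h2 h3 h4
    unfold ks
    have p1 : (1 : Matrix (Fin n1) (Fin n1) ℝ).PosSemidef := PosSemidef.one
    have p2 : (1 : Matrix (Fin n2) (Fin n2) ℝ).PosSemidef := PosSemidef.one
    have p3 : (1 : Matrix (Fin n3) (Fin n3) ℝ).PosSemidef := PosSemidef.one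
    have p4 : (1 : Matrix (Fin n4) (Fin n4) ℝ).PosSemidef := PosSemidef.one
    exact PosDef.posSemidef_add (((k4_psd h1 p2 p3 p4).add (k4_psd p1 h2 p3 p4)).add (k4_psd p1 p2 h3 p4))
      (k4_pd PosDef.one PosDef.one PosDef.one h4)

end Pool.Agent.H17.AF
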